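import Mathlib
import Pool.Agent.H24.Mon2

set_option autoImplicit false

namespace Pool.Agent.Results.MP_eab232_al.CDecidable

open Pool.Agent.H24.Srs

theorem result (A : Type) [Finite A] [Primcodable A] (R : Set (List A × List A)) (hR : R.Finite)
    (hm : ∀ p ∈ R, p.2.length ≤ 1 ∧ p.2.length < p.1.length) (hc : Confl R) :
    ComputablePred fun x : List A × List A => CConj (cl R x.1) (cl R x.2) :=
  Pool.Agent.H24.Mon.final hR hm hc

end Pool.Agent.Results.MP_eab232_al.CDecidable
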