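import Mathlib
import Pool.Agent.H24.PConj

set_option autoImplicit false

namespace Pool.Agent.Results.MP_eab232_al.PUndecidable

open Pool.Agent.H24.Srs

theorem result : ∃ (A : Type) (_ : Finite A) (_ : Primcodable A) (R : Set (List A × List A)),
    R.Finite ∧ (∀ p ∈ R, p.2.length ≤ 1 ∧ p.2.length < p.1.length) ∧ Confl R ∧
    ¬ ComputablePred fun x : List A × List A =>
      ∃ u v, cl R x.1 = u * v ∧ cl R x.2 = v * u :=
  Pool.Agent.H24.PConj.final

end Pool.Agent.Results.MP_eab232_al.PUndecidable
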